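import Mathlib

set_option autoImplicit false

namespace Pool.Agent.H306R3

open SimpleGraph

/-- reduced words of length at most `r` over `Fin d` -/
def Wd (d r : ℕ) : Type := {w : List (Fin d) // w.length ≤ r ∧ w.IsChain (· ≠ ·)}

noncomputable instance (d r : ℕ) : Fintype (Wd d r) := by
  classical
  have : Finite (Wd d r) := by
    have h : Finite {w : List (Fin d) // w.length ≤ r} := (List.finite_length_le (Fin d) r).to_subtype
    exact Finite.of_injective (fun w : Wd d r => (⟨w.1, w.2.1⟩ : {w : List (Fin d) // w.length ≤ r}))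
      (fun a b hab => Subtype.ext (by simpa using hab))
  exact Fintype.ofFinite _

/-- the involution attached to the letter `i` -/
def flip {d : ℕ} (r : ℕ) (i : Fin d) (w : List (Fin d)) : List (Fin d) :=
  match w with
  | [] => if 0 < r then [i] else []
  | a :: l => if a = i then l else if (a :: l).length < r then i :: a :: l else a :: l

lemma flip_mem {d r : ℕ} (i : Fin d) {w : List (Fin d)} (h : w.length ≤ r ∧ w.IsChain (· ≠ ·)) :
    (flip r i w).length ≤ r ∧ (flip r i w).IsChain (· ≠ ·) := by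
  cases w with
  | nil =>
    simp only [flip]
    split_ifs with h0
    · exact ⟨h0, by simp⟩
    · exact ⟨by simp, by simp⟩
  | cons a l =>
    simp only [flip]
    by_cases h0 : a = i
    · rw [if_pos h0]
      refine ⟨?_, h.2.tail⟩
      have := h.1
      simp only [List.length_cons] at this
      omega
    · rw [if_neg h0]
      by_cases h1 : (a :: l).length < r
      · rw [if_pos h1]
        refine ⟨by simpa using h1, ?_⟩
        rw [List.isChain_cons_cons]
        exact ⟨fun h2 => h0 h2.symm, h.2⟩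
      · rw [if_neg h1]
        exact h

lemma flip_flip {d r : ℕ} (i : Fin d) {w : List (Fin d)} (h : w.length ≤ r ∧ w.IsChain (· ≠ ·)) :
    flip r i (flip r i w) = w := by
  cases w with
  | nil =>
    by_cases h0 : 0 < r
    · simp [flip, h0]
    · simp [flip, h0]
  | cons a l =>
    by_cases ha : a = i
    · subst ha
      have h1 : flip r a (a :: l) = l := by simp [flip]
      rw [h1]
      cases l with
      | nil =>
        have := h.1
        simp only [List.length_cons, List.length_nil] at this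
        simp only [flip]
        rw [if_pos (by omega)]
      | cons b l =>
        have hab : a ≠ b := by
          have := h.2
          rw [List.isChain_cons_cons] at this
          exact this.1
        have hl := h.1
        simp only [List.length_cons] at hl
        simp only [flip]
        rw [if_neg (Ne.symm hab), if_pos (by simp only [List.length_cons]; omega)]
    · by_cases hl : (a :: l).length < r
      · have h1 : flip r i (a :: l) = i :: a :: l := by
          simp only [flip]
          rw [if_neg ha, if_pos hl]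
        rw [h1]
        simp [flip]
      · have h1 : flip r i (a :: l) = a :: l := by
          simp only [flip]
          rw [if_neg ha, if_neg hl]
        rw [h1, h1]

/-- the permutation attached to the letter `i` -/
def pi' {d : ℕ} (r : ℕ) (i : Fin d) : Equiv.Perm (Wd d r) where
  toFun w := ⟨flip r i w.1, flip_mem i w.2⟩
  invFun w := ⟨flip r i w.1, flip_mem i w.2⟩
  left_inv w := Subtype.ext (flip_flip i w.2)
  right_inv w := Subtype.ext (flip_flip i w.2)

lemma pi_mul_self {d : ℕ} (r : ℕ) (i : Fin d) : pi' r i * pi' r i = 1 := by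
  ext w
  exact Subtype.ext (flip_flip i w.2)

/-- the empty word -/
def ew (d r : ℕ) : Wd d r := ⟨[], by simp, by simp⟩

/-- The graph on permutations: `σ` is joined to `pi i * σ`. -/
def T (d r : ℕ) : SimpleGraph (Equiv.Perm (Wd d r)) where
  Adj σ τ := σ ≠ τ ∧ ∃ i, τ = pi' r i * σ
  symm := by
    constructor
    rintro σ τ ⟨h, i, rfl⟩
    refine ⟨h.symm, i, ?_⟩
    rw [← mul_assoc, pi_mul_self, one_mul]
  loopless := ⟨fun σ h => h.1 rfl⟩

lemma pi_ew {d r : ℕ} (hr : 1 ≤ r) (i : Fin d) : ((pi' r i) (ew d r)).1 = [i] := by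
  show flip r i [] = [i]
  simp only [flip]
  rw [if_pos (by omega)]

lemma pi_inj {d r : ℕ} (hr : 1 ≤ r) {i j : Fin d} (h : pi' r i = pi' r j) : i = j := by
  have h1 := pi_ew hr i
  rw [h, pi_ew hr j] at h1
  simpa using h1.symm

lemma pi_ne_one {d r : ℕ} (hr : 1 ≤ r) (i : Fin d) : pi' r i ≠ 1 := by
  intro h
  have h1 := pi_ew hr i
  rw [h, Equiv.Perm.one_apply] at h1
  simp [ew] at h1

lemma T_adj {d r : ℕ} (hr : 1 ≤ r) (σ τ : Equiv.Perm (Wd d r)) :
    (T d r).Adj σ τ ↔ ∃ i, τ = pi' r i * σ := by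
  constructor
  · exact fun h => h.2
  · rintro ⟨i, rfl⟩
    refine ⟨?_, i, rfl⟩
    intro h
    exact pi_ne_one hr i (by simpa using h.symm)

lemma T_nbr {d r : ℕ} (hr : 1 ≤ r) (σ : Equiv.Perm (Wd d r)) :
    ((T d r).neighborSet σ).ncard = d := by
  have h1 : (T d r).neighborSet σ = Set.range (fun i : Fin d => pi' r i * σ) := by
    ext τ
    rw [SimpleGraph.mem_neighborSet, T_adj hr]
    simp only [Set.mem_range]
    constructor
    · rintro ⟨i, hi⟩; exact ⟨i, hi.symm⟩
    · rintro ⟨i, hi⟩; exact ⟨i, hi.symm⟩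
  rw [h1, ← Set.image_univ, Set.ncard_image_of_injective]
  · simp
  · intro i j hij
    simp only [mul_left_inj] at hij
    exact pi_inj hr hij

/-- applying a further letter to a reduced word -/
lemma pi_app {d r : ℕ} (i : Fin d) (w : Wd d r) (h1 : w.1.length < r) (h2 : ∀ a ∈ w.1.head?, a ≠ i) :
    ((pi' r i) w).1 = i :: w.1 := by
  obtain ⟨w, hw⟩ := w
  show flip r i w = i :: w
  cases w with
  | nil =>
    simp only [flip]
    rw [if_pos (by simpa using h1)]
  | cons a l =>
    simp only [flip]
    rw [if_neg (h2 a (by simp)), if_pos h1]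

/-- A non-backtracking walk in `T` of length between `1` and `r` is not closed. -/
lemma no_closed {d r : ℕ} (hr : 1 ≤ r) (σ : ℕ → Equiv.Perm (Wd d r)) (c : ℕ → Fin d)
    (hσ : ∀ k, σ (k + 1) = pi' r (c k) * σ k) (hnb : ∀ k, σ (k + 2) ≠ σ k)
    (a b : ℕ) (hab : a < b) (hb : b ≤ a + r) : σ a ≠ σ b := by
  have hc : ∀ k, c (k + 1) ≠ c k := by
    intro k h
    apply hnb k
    rw [hσ (k + 1), hσ k, h, ← mul_assoc, pi_mul_self, one_mul]
  have key : ∀ n, n ≤ r → (((σ (a + n) * (σ a)⁻¹) (ew d r)).1.length = n ∧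
      (∀ x ∈ ((σ (a + n) * (σ a)⁻¹) (ew d r)).1.head?, ∃ k, a + n = k + 1 ∧ x = c k)) := by
    intro n
    induction n with
    | zero =>
      intro _
      rw [add_zero, mul_inv_cancel, Equiv.Perm.one_apply]
      simp [ew]
    | succ n ih =>
      intro hn
      obtain ⟨h1, h2⟩ := ih (by omega)
      have h3 : σ (a + (n + 1)) * (σ a)⁻¹ = pi' r (c (a + n)) * (σ (a + n) * (σ a)⁻¹) := by
        rw [← add_assoc, hσ (a + n), mul_assoc]
      have h4 := pi_app (c (a + n)) ((σ (a + n) * (σ a)⁻¹) (ew d r)) (by omega) (by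
        intro x hx
        obtain ⟨k, hk, rfl⟩ := h2 x hx
        rw [hk]
        exact (hc k).symm)
      rw [h3, Equiv.Perm.mul_apply, h4]
      refine ⟨by rw [List.length_cons, h1], ?_⟩
      intro x hx
      simp only [List.head?_cons, Option.mem_def, Option.some.injEq] at hx
      exact ⟨a + n, by omega, hx.symm⟩
  intro h
  obtain ⟨n, rfl⟩ := Nat.exists_eq_add_of_lt hab
  have h1 := (key (n + 1) (by omega)).1
  rw [show a + (n + 1) = a + n + 1 by omega, ← h, mul_inv_cancel, Equiv.Perm.one_apply] at h1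
  simp [ew] at h1

/-- a graph with minimum degree at least two on at most `r` vertices is not contained in `T` -/
lemma not_contained {d r M : ℕ} (hr : 1 ≤ r) (hM : 0 < M) (hMr : M ≤ r) (K : SimpleGraph (Fin M))
    (hK : ∀ v, 2 ≤ (K.neighborSet v).ncard) : ¬ K.IsContained (T d r) := by
  rintro ⟨f⟩
  have hstep : ∀ p : Fin M × Fin M, ∃ w, K.Adj p.2 w ∧ w ≠ p.1 := by
    rintro ⟨p, v⟩
    have h := hK v
    by_contra hcon
    push Not at hcon
    have hsub : K.neighborSet v ⊆ {p} := fun w hw => hcon w hw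
    have := Set.ncard_le_ncard hsub (Set.finite_singleton p)
    rw [Set.ncard_singleton] at this
    omega
  choose nx hnx1 hnx2 using hstep
  let v0 : Fin M := ⟨0, hM⟩
  let st : ℕ → Fin M × Fin M := fun k => Nat.rec (v0, nx (v0, v0)) (fun _ p => (p.2, nx p)) k
  have hst : ∀ k, st (k + 1) = ((st k).2, nx (st k)) := fun k => rfl
  let x : ℕ → Fin M := fun k => (st k).1
  have hx1 : ∀ k, x (k + 1) = (st k).2 := fun k => rfl
  have hx2 : ∀ k, x (k + 2) = nx (st k) := fun k => rfl
  have hadj0 : ∀ k, K.Adj (st k).1 (st k).2 := by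
    intro k
    cases k with
    | zero => exact hnx1 (v0, v0)
    | succ k => rw [hst]; exact hnx1 (st k)
  have hadj : ∀ k, K.Adj (x k) (x (k + 1)) := fun k => hadj0 k
  have hnb : ∀ k, x (k + 2) ≠ x k := fun k => hnx2 (st k)
  have hT : ∀ k, ∃ i, f (x (k + 1)) = pi' r i * f (x k) := fun k =>
    (T_adj hr _ _).1 (f.toHom.map_adj (hadj k))
  choose c hc using hT
  have hinj : Function.Injective f := f.injective
  obtain ⟨a, ha, b, hb, hne, hab⟩ : ∃ a ∈ Finset.range (M + 1), ∃ b ∈ Finset.range (M + 1),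
      a ≠ b ∧ x a = x b := by
    apply Finset.exists_ne_map_eq_of_card_lt_of_maps_to (t := (Finset.univ : Finset (Fin M)))
    · simp
    · intro a _; simp
  rw [Finset.mem_range] at ha hb
  rcases lt_or_gt_of_ne hne with h | h
  · exact no_closed hr (fun k => f (x k)) c hc (fun k hk => hnb k (hinj hk)) a b h (by omega)
      (by simp only [hab])
  · exact no_closed hr (fun k => f (x k)) c hc (fun k hk => hnb k (hinj hk)) b a h (by omega)
      (by simp only [hab])

/-- Regular graphs in which no graph on at most `r` vertices with minimum degree at least two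
is contained. -/
theorem exists_high (d r : ℕ) (hd : 2 ≤ d) (hr : 1 ≤ r) :
    ∃ (m : ℕ) (G : SimpleGraph (Fin m)), r < m ∧ (∀ v, (G.neighborSet v).ncard = d) ∧
      ∀ M : ℕ, 0 < M → M ≤ r → ∀ K : SimpleGraph (Fin M), (∀ v, 2 ≤ (K.neighborSet v).ncard) →
        ¬ K.IsContained G := by
  classical
  have hdeg : ∀ v, (((T d r).overFin (n := Fintype.card (Equiv.Perm (Wd d r))) rfl).neighborSet v).ncard
      = d := by
    intro v
    let e := (T d r).overFinIso (n := Fintype.card (Equiv.Perm (Wd d r))) rfl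
    have e1 : ((T d r).overFin rfl).neighborSet v ≃ (T d r).neighborSet (e.symm v) :=
      e.symm.mapNeighborSet v
    rw [← Nat.card_coe_set_eq, Nat.card_congr e1, Nat.card_coe_set_eq]
    exact T_nbr hr _
  have hcon : ∀ M : ℕ, 0 < M → M ≤ r → ∀ K : SimpleGraph (Fin M),
      (∀ v, 2 ≤ (K.neighborSet v).ncard) →
        ¬ K.IsContained ((T d r).overFin (n := Fintype.card (Equiv.Perm (Wd d r))) rfl) := by
    intro M hM hMr K hK hc
    exact not_contained hr hM hMr K hK
      (hc.trans ⟨((T d r).overFinIso (n := Fintype.card (Equiv.Perm (Wd d r))) rfl).symm.toCopy⟩)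
  refine ⟨_, (T d r).overFin rfl, ?_, hdeg, hcon⟩
  by_contra hlt
  push Not at hlt
  exact hcon _ Fintype.card_pos hlt _ (fun v => by rw [hdeg v]; exact hd) (SimpleGraph.IsContained.refl _)

/-- a finite nonempty graph with minimum degree at least two is not acyclic -/
theorem not_acyclic {M : ℕ} (hM : 0 < M) (K : SimpleGraph (Fin M))
    (hK : ∀ v, 2 ≤ (K.neighborSet v).ncard) : ¬ K.IsAcyclic := by
  intro hac
  have hex : ∃ n, (∃ (u v : Fin M) (p : K.Walk u v), p.IsPath ∧ p.length = n) ∧
      ∀ m, (∃ (u v : Fin M) (p : K.Walk u v), p.IsPath ∧ p.length = m) → m ≤ n := by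
    have hb : ∀ m, (∃ (u v : Fin M) (p : K.Walk u v), p.IsPath ∧ p.length = m) → m ≤ M := by
      rintro m ⟨u, v, p, hp, rfl⟩
      have := hp.length_lt
      rw [Fintype.card_fin] at this
      omega
    have h0 : ∃ m, (∃ (u v : Fin M) (p : K.Walk u v), p.IsPath ∧ p.length = m) :=
      ⟨0, ⟨0, hM⟩, ⟨0, hM⟩, Walk.nil, Walk.IsPath.nil, rfl⟩
    classical
    obtain ⟨m0, hm0⟩ := h0
    refine ⟨Nat.findGreatest (fun m => ∃ (u v : Fin M) (p : K.Walk u v), p.IsPath ∧ p.length = m) M,
      Nat.findGreatest_spec (P := fun m => ∃ (u v : Fin M) (p : K.Walk u v), p.IsPath ∧ p.length = m)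
        (hb m0 hm0) hm0, ?_⟩
    intro m hm
    exact Nat.le_findGreatest (hb m hm) hm
  obtain ⟨n, ⟨u, v, p, hp, hpn⟩, hmax⟩ := hex
  obtain ⟨w, hw1, hw2⟩ : ∃ w, K.Adj u w ∧ w ≠ p.snd := by
    by_contra hcon
    push Not at hcon
    have hsub : K.neighborSet u ⊆ {p.snd} := fun w hw => hcon w hw
    have := Set.ncard_le_ncard hsub (Set.finite_singleton _)
    rw [Set.ncard_singleton] at this
    have := hK u
    omega
  by_cases hws : w ∈ p.support
  · exact hw2 (hac.eq_snd_of_adj_start hp hw1 hws)
  · have := hmax (n + 1) ⟨w, v, Walk.cons hw1.symm p, by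
      rw [Walk.cons_isPath_iff]; exact ⟨hp, hws⟩, by simp [hpn]⟩
    omega

end Pool.Agent.H306R3
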