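import Mathlib
import Pool.Agent.H972ST.Stmts

set_option autoImplicit false

namespace Pool.Agent.H306R3.ST

open Pool.Agent.H972ST

open Classical in
theorem mem_W (m : ℕ) (z : T6) : z ∈ Wset m ↔ z ∈ Box m ∧ prs m z ∧ par z := by
  unfold Wset
  exact Finset.mem_filter

theorem fib (m : ℕ) (e1 e2 e3 : ℤ) :
    ((Wset m).filter fun z => (z.2.1.1 % 2, z.2.2.1 % 2, z.2.2.2 % 2) = (e1, e2, e3)) =
      (Pr m ((e1 + e2) % 2) ((e1 + e3) % 2) ×ˢ (Pr m e1 ((e1 + e2 + e3) % 2) ×ˢ Pr m e2 e3) :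
        Finset T6) := by
  ext ⟨⟨n1, n2⟩, ⟨y1, y4⟩, ⟨y2, y3⟩⟩
  rw [Finset.mem_filter, mem_W]
  simp only [Pr, Box, prs, par, Finset.mem_filter, Finset.mem_product, Finset.mem_Icc,
    Prod.mk.injEq]
  constructor
  · rintro ⟨⟨⟨⟨⟨a1, a2⟩, a3, a4⟩, ⟨⟨a5, a6⟩, a7, a8⟩, ⟨a9, a10⟩, a11, a12⟩, ⟨b1, b2, b3⟩,
      c1, c2, c3, c4⟩, d1, d2, d3⟩
    refine ⟨⟨⟨⟨a1, a2⟩, a3, a4⟩, b1, ?_, ?_⟩, ⟨⟨⟨a5, a6⟩, a7, a8⟩, b2, d1, ?_⟩,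
      ⟨⟨a9, a10⟩, a11, a12⟩, b3, d2, d3⟩ <;> omega
  · rintro ⟨⟨⟨⟨a1, a2⟩, a3, a4⟩, b1, c1, c2⟩, ⟨⟨⟨a5, a6⟩, a7, a8⟩, b2, d1, c3⟩,
      ⟨⟨a9, a10⟩, a11, a12⟩, b3, d2, d3⟩
    refine ⟨⟨⟨⟨⟨a1, a2⟩, a3, a4⟩, ⟨⟨a5, a6⟩, a7, a8⟩, ⟨a9, a10⟩, a11, a12⟩, ⟨b1, b2, b3⟩,
      ?_, ?_, ?_, ?_⟩, d1, d2, d3⟩ <;> omega

theorem tW : TW := by
  intro hP m
  obtain ⟨h00, h01, h10, h11⟩ := hP m
  have key := Finset.card_eq_sum_card_fiberwise (s := Wset m)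
    (t := (({0, 1} : Finset ℤ) ×ˢ (({0, 1} : Finset ℤ) ×ˢ ({0, 1} : Finset ℤ))))
    (f := fun z => (z.2.1.1 % 2, z.2.2.1 % 2, z.2.2.2 % 2)) (by
      intro z _
      simp only [Finset.coe_product, Set.mem_prod, Finset.coe_insert, Finset.coe_singleton,
        Set.mem_insert_iff, Set.mem_singleton_iff]
      omega)
  rw [key]
  rw [Finset.sum_product, Finset.sum_pair (by norm_num), Finset.sum_product, Finset.sum_product,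
    Finset.sum_pair (by norm_num), Finset.sum_pair (by norm_num), Finset.sum_pair (by norm_num),
    Finset.sum_pair (by norm_num), Finset.sum_pair (by norm_num), Finset.sum_pair (by norm_num)]
  simp only [fib, Finset.card_product]
  norm_num [h00, h01, h10, h11]
  ring

end Pool.Agent.H306R3.ST

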